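import Pool.Agent.LibTB10.F4

/-!
# Symmetric algebras: the trace pairing between `Hom(P,Q)` and `Hom(Q,P)`
-/

set_option autoImplicit false

universe u

namespace TB20

open Module

section free
variable {k : Type u} [Field k] {B : Type u} [Ring B] [Algebra k B] (lam : B →ₗ[k] k)

/-- the trace form of the endomorphisms of `B^n`. -/
noncomputable def trn {n : ℕ} (φ : (Fin n → B) →ₗ[B] (Fin n → B)) : k :=
  ∑ j, lam (φ (Pi.single j 1) j)

theorem apply_eq {n m : ℕ} (ψ : (Fin m → B) →ₗ[B] (Fin n → B)) (v : Fin m → B) (j : Fin n) :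
    ψ v j = ∑ i, v i * ψ (Pi.single i 1) j := by
  have h1 : v = ∑ i, v i • (Pi.single i 1 : Fin m → B) := by
    funext j
    simp [Finset.sum_apply, Pi.single_apply]
  conv_lhs => rw [h1]
  rw [map_sum, Finset.sum_apply]
  refine Finset.sum_congr rfl fun i _ => ?_
  rw [map_smul, Pi.smul_apply, smul_eq_mul]

theorem trn_comm (hsym : ∀ x y, lam (x * y) = lam (y * x)) {n m : ℕ}
    (φ : (Fin n → B) →ₗ[B] (Fin m → B)) (ψ : (Fin m → B) →ₗ[B] (Fin n → B)) :
    trn lam (ψ ∘ₗ φ) = trn lam (φ ∘ₗ ψ) := by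
  unfold trn
  have h1 : ∀ j, lam ((ψ ∘ₗ φ) (Pi.single j 1) j) =
      ∑ i, lam (φ (Pi.single j 1) i * ψ (Pi.single i 1) j) := by
    intro j
    rw [LinearMap.comp_apply, apply_eq, map_sum]
  have h2 : ∀ i, lam ((φ ∘ₗ ψ) (Pi.single i 1) i) =
      ∑ j, lam (ψ (Pi.single i 1) j * φ (Pi.single j 1) i) := by
    intro i
    rw [LinearMap.comp_apply, apply_eq, map_sum]
  simp only [h1, h2]
  rw [Finset.sum_comm]
  refine Finset.sum_congr rfl fun i _ => Finset.sum_congr rfl fun j _ => hsym _ _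

theorem trn_nondeg (hnd : ∀ x, (∀ y, lam (x * y) = 0) → x = 0) {n m : ℕ}
    (Y : (Fin n → B) →ₗ[B] (Fin m → B))
    (h : ∀ X : (Fin m → B) →ₗ[B] (Fin n → B), trn lam (X ∘ₗ Y) = 0) : Y = 0 := by
  have h1 : ∀ j i, Y (Pi.single j 1) i = 0 := by
    intro j i
    refine hnd _ fun y => ?_
    let X : (Fin m → B) →ₗ[B] (Fin n → B) :=
      { toFun := fun v => Pi.single j (v i * y)
        map_add' := fun v w => by
          rw [Pi.add_apply, add_mul, Pi.single_add]
        map_smul' := fun b v => by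
          rw [Pi.smul_apply, smul_eq_mul, mul_assoc, RingHom.id_apply, ← smul_eq_mul,
            Pi.single_smul] }
    have h2 := h X
    rw [trn, Finset.sum_eq_single j] at h2
    · rw [LinearMap.comp_apply] at h2
      change lam ((Pi.single j (Y (Pi.single j 1) i * y) : Fin n → B) j) = 0 at h2
      rwa [Pi.single_eq_same] at h2
    · intro j' _ hj
      rw [LinearMap.comp_apply]
      change lam ((Pi.single j (Y (Pi.single j' 1) i * y) : Fin n → B) j') = 0
      rw [Pi.single_eq_of_ne hj, map_zero]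
    · intro h3
      exact absurd (Finset.mem_univ j) h3
  refine LinearMap.ext fun v => ?_
  funext i
  rw [apply_eq]
  simp [h1]

end free

section proj
variable {B : Type u} [Ring B]

/-- a presentation of a module as a summand of a free module. -/
structure Fr (B P : Type u) [Ring B] [AddCommGroup P] [Module B P] where
  n : ℕ
  i : P →ₗ[B] (Fin n → B)
  p : (Fin n → B) →ₗ[B] P
  h : p ∘ₗ i = LinearMap.id

theorem exists_Fr (P : Type u) [AddCommGroup P] [Module B P] [Module.Finite B P]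
    [Module.Projective B P] : Nonempty (Fr B P) := by
  obtain ⟨n, p, hp⟩ := Module.Finite.exists_fin' B P
  obtain ⟨i, hi⟩ := Module.projective_lifting_property p LinearMap.id hp
  exact ⟨⟨n, i, p, hi⟩⟩

end proj

section pairing
variable {k : Type u} [Field k] {B : Type u} [Ring B] [Algebra k B] (lam : B →ₗ[k] k)
variable {P : Type u} [AddCommGroup P] [Module B P] {Q : Type u} [AddCommGroup Q] [Module B Q]

/-- the trace form of the endomorphisms of a projective module. -/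
noncomputable def T (F : Fr B P) (φ : P →ₗ[B] P) : k := trn lam (F.i ∘ₗ φ ∘ₗ F.p)

theorem T_comm (hsym : ∀ x y, lam (x * y) = lam (y * x)) (F : Fr B P) (F' : Fr B Q)
    (f : P →ₗ[B] Q) (g : Q →ₗ[B] P) : T lam F (g ∘ₗ f) = T lam F' (f ∘ₗ g) := by
  have h1 : F.i ∘ₗ (g ∘ₗ f) ∘ₗ F.p = (F.i ∘ₗ g ∘ₗ F'.p) ∘ₗ (F'.i ∘ₗ f ∘ₗ F.p) := by
    refine LinearMap.ext fun v => ?_
    have := LinearMap.congr_fun F'.h (f (F.p v))
    simp only [LinearMap.comp_apply, LinearMap.id_apply] at this ⊢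
    rw [this]
  have h2 : F'.i ∘ₗ (f ∘ₗ g) ∘ₗ F'.p = (F'.i ∘ₗ f ∘ₗ F.p) ∘ₗ (F.i ∘ₗ g ∘ₗ F'.p) := by
    refine LinearMap.ext fun v => ?_
    have := LinearMap.congr_fun F.h (g (F'.p v))
    simp only [LinearMap.comp_apply, LinearMap.id_apply] at this ⊢
    rw [this]
  rw [T, T, h1, h2]
  exact trn_comm lam hsym _ _

theorem T_nondeg (hsym : ∀ x y, lam (x * y) = lam (y * x))
    (hnd : ∀ x, (∀ y, lam (x * y) = 0) → x = 0) (F : Fr B P) (F' : Fr B Q)
    (f : P →ₗ[B] Q) (h : ∀ g : Q →ₗ[B] P, T lam F (g ∘ₗ f) = 0) : f = 0 := by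
  have h1 : F'.i ∘ₗ f ∘ₗ F.p = 0 := by
    refine trn_nondeg lam hnd _ fun X => ?_
    have h2 := h (F.p ∘ₗ X ∘ₗ F'.i)
    rw [T] at h2
    have h3 : F.i ∘ₗ ((F.p ∘ₗ X ∘ₗ F'.i) ∘ₗ f) ∘ₗ F.p =
        (F.i ∘ₗ F.p) ∘ₗ (X ∘ₗ (F'.i ∘ₗ f ∘ₗ F.p)) := rfl
    rw [h3, trn_comm lam hsym] at h2
    have h4 : (X ∘ₗ (F'.i ∘ₗ f ∘ₗ F.p)) ∘ₗ (F.i ∘ₗ F.p) = X ∘ₗ (F'.i ∘ₗ f ∘ₗ F.p) := by
      refine LinearMap.ext fun v => ?_
      have := LinearMap.congr_fun F.h (F.p v)
      simp only [LinearMap.comp_apply, LinearMap.id_apply] at this ⊢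
      rw [this]
    rwa [h4] at h2
  refine LinearMap.ext fun x => ?_
  have h2 := congrArg F'.p (LinearMap.congr_fun h1 (F.i x))
  have h3 := LinearMap.congr_fun F.h x
  have h4 := LinearMap.congr_fun F'.h (f x)
  simp only [LinearMap.comp_apply, LinearMap.id_apply, LinearMap.zero_apply, map_zero] at h2 h3 h4
  rw [h3, h4] at h2
  rw [h2, LinearMap.zero_apply]

variable [Module k P] [IsScalarTower k B P] [Module k Q] [IsScalarTower k B Q]

theorem T_add (F : Fr B P) (φ ψ : P →ₗ[B] P) : T lam F (φ + ψ) = T lam F φ + T lam F ψ := by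
  simp only [T, trn, LinearMap.comp_apply, LinearMap.add_apply, map_add, Pi.add_apply,
    Finset.sum_add_distrib]

theorem T_smul (F : Fr B P) (c : k) (φ : P →ₗ[B] P) : T lam F (c • φ) = c * T lam F φ := by
  have h1 : ∀ x : P, F.i (c • x) = c • F.i x := fun x => by
    rw [← algebraMap_smul B c x, map_smul, algebraMap_smul]
  simp only [T, trn, LinearMap.comp_apply, LinearMap.smul_apply, h1, Pi.smul_apply, map_smul,
    smul_eq_mul, Finset.mul_sum]

/-- the pairing as a linear map. -/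
noncomputable def pairing (F : Fr B P) : (P →ₗ[B] Q) →ₗ[k] Dual k (Q →ₗ[B] P) where
  toFun f :=
    { toFun := fun g => T lam F (g ∘ₗ f)
      map_add' := fun g g' => by rw [LinearMap.add_comp, T_add]
      map_smul' := fun c g => by
        rw [LinearMap.smul_comp, T_smul, RingHom.id_apply, smul_eq_mul] }
  map_add' f f' := by
    refine LinearMap.ext fun g => ?_
    change T lam F (g ∘ₗ (f + f')) = T lam F (g ∘ₗ f) + T lam F (g ∘ₗ f')
    rw [LinearMap.comp_add, T_add]
  map_smul' c f := by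
    refine LinearMap.ext fun g => ?_
    change T lam F (g ∘ₗ (c • f)) = c * T lam F (g ∘ₗ f)
    have h1 : g ∘ₗ (c • f) = c • (g ∘ₗ f) := by
      refine LinearMap.ext fun x => ?_
      simp only [LinearMap.comp_apply, LinearMap.smul_apply]
      rw [← algebraMap_smul B c (f x), map_smul, algebraMap_smul]
    rw [h1, T_smul]

theorem hom_le [Module.Finite k P] [Module.Finite k Q]
    (hsym : ∀ x y, lam (x * y) = lam (y * x)) (hnd : ∀ x, (∀ y, lam (x * y) = 0) → x = 0)
    (F : Fr B P) (F' : Fr B Q) : finrank k (P →ₗ[B] Q) ≤ finrank k (Q →ₗ[B] P) := by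
  rw [← Subspace.dual_finrank_eq (K := k) (V := (Q →ₗ[B] P))]
  refine LinearMap.finrank_le_finrank_of_injective (f := pairing lam F) ?_
  rw [← LinearMap.ker_eq_bot, LinearMap.ker_eq_bot']
  intro f hf
  refine T_nondeg lam hsym hnd F F' f fun g => ?_
  exact LinearMap.congr_fun hf g

end pairing

end TB20
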