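import Pool.Agent.LibTB20.S1

/-!
# Symmetric algebras: the endomorphisms of a rigid complex `P → Q` up to homotopy
-/

set_option autoImplicit false

universe u

namespace TB20

open Module TB10

section
variable (k : Type u) [Field k] {B : Type u} [Ring B] [Algebra k B]
variable {P : Type u} [AddCommGroup P] [Module B P] [Module k P] [IsScalarTower k B P]
variable {Q : Type u} [AddCommGroup Q] [Module B Q] [Module k Q] [IsScalarTower k B Q]

/-- the endomorphisms of the complex `f : P → Q`. -/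
def Z (f : P →ₗ[B] Q) : Submodule k ((Q →ₗ[B] Q) × (P →ₗ[B] P)) where
  carrier := {z | z.1 ∘ₗ f = f ∘ₗ z.2}
  add_mem' := by
    intro a b ha hb
    change (a.1 + b.1) ∘ₗ f = f ∘ₗ (a.2 + b.2)
    rw [LinearMap.add_comp, LinearMap.comp_add, ha, hb]
  zero_mem' := by
    change (0 : Q →ₗ[B] Q) ∘ₗ f = f ∘ₗ (0 : P →ₗ[B] P)
    rw [LinearMap.zero_comp, LinearMap.comp_zero]
  smul_mem' := by
    intro c a ha
    change (c • a.1) ∘ₗ f = f ∘ₗ (c • a.2)
    refine LinearMap.ext fun x => ?_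
    have h1 : f (c • a.2 x) = c • f (a.2 x) := by
      rw [← algebraMap_smul B c (a.2 x), map_smul, algebraMap_smul]
    have h2 := LinearMap.congr_fun ha x
    simp only [LinearMap.comp_apply] at h2
    simp only [LinearMap.comp_apply, LinearMap.smul_apply, h1, h2]

/-- `g ↦ (f g, g f)`. -/
def htp (f : P →ₗ[B] Q) : (Q →ₗ[B] P) →ₗ[k] ((Q →ₗ[B] Q) × (P →ₗ[B] P)) where
  toFun g := (f ∘ₗ g, g ∘ₗ f)
  map_add' g g' := by
    rw [LinearMap.comp_add, LinearMap.add_comp]; rfl
  map_smul' c g := by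
    refine Prod.ext ?_ rfl
    refine LinearMap.ext fun x => ?_
    change f (c • g x) = c • f (g x)
    rw [← algebraMap_smul B c (g x), map_smul, algebraMap_smul]

theorem htp_mem (f : P →ₗ[B] Q) (g : Q →ₗ[B] P) : htp k f g ∈ Z k f := rfl

/-- the space of the pairs `(f g, g f)`, `g : Q → P`. -/
def N (f : P →ₗ[B] Q) : Submodule k ((Q →ₗ[B] Q) × (P →ₗ[B] P)) := LinearMap.range (htp k f)

/-- the dimension of the space of the endomorphisms of the complex `f : P → Q` up to homotopy. -/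
noncomputable def dimEnd (f : P →ₗ[B] Q) : ℕ := finrank k (Z k f) - finrank k (N k f)

variable [Module.Finite k P] [Module.Finite k Q]

theorem finrank_Z' (f : P →ₗ[B] Q) :
    finrank k (Z k f) + finrank k (LinearMap.range (Phi k f f)) =
      finrank k (Q →ₗ[B] Q) + finrank k (P →ₗ[B] P) := by
  have h1 := LinearMap.finrank_range_add_finrank_ker (Phi k f f)
  rw [Module.finrank_prod] at h1
  let e : Z k f ≃ₗ[k] LinearMap.ker (Phi k f f) :=
    { toFun := fun z => ⟨(z.1.1, - z.1.2), by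
        rw [LinearMap.mem_ker]
        change z.1.1 ∘ₗ f + f ∘ₗ (- z.1.2) = 0
        rw [show z.1.1 ∘ₗ f = f ∘ₗ z.1.2 from z.2, LinearMap.comp_neg, add_neg_cancel]⟩
      map_add' := fun x y => by
        refine Subtype.ext (Prod.ext rfl ?_)
        change -(x.1.2 + y.1.2) = - x.1.2 + - y.1.2
        rw [neg_add]
      map_smul' := fun c x => by
        refine Subtype.ext (Prod.ext rfl ?_)
        change -(c • x.1.2) = c • (- x.1.2)
        rw [smul_neg]
      invFun := fun z => ⟨(z.1.1, - z.1.2), by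
        have h2 : z.1.1 ∘ₗ f + f ∘ₗ z.1.2 = 0 := LinearMap.mem_ker.1 z.2
        change z.1.1 ∘ₗ f = f ∘ₗ (- z.1.2)
        rw [LinearMap.comp_neg]
        exact eq_neg_of_add_eq_zero_left h2⟩
      left_inv := fun z => Subtype.ext (Prod.ext rfl (neg_neg _))
      right_inv := fun z => Subtype.ext (Prod.ext rfl (neg_neg _)) }
  rw [e.finrank_eq]
  omega

theorem finrank_Z (f : P →ₗ[B] Q) (hf : Rigid f) :
    finrank k (Z k f) + finrank k (P →ₗ[B] Q) =
      finrank k (Q →ₗ[B] Q) + finrank k (P →ₗ[B] P) := by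
  have hsurj : LinearMap.range (Phi k f f) = ⊤ := by
    rw [LinearMap.range_eq_top]
    intro x
    obtain ⟨α, β, hx⟩ := hf x
    exact ⟨(α, β), hx⟩
  have h1 := finrank_Z' k f
  rwa [hsurj, finrank_top] at h1

theorem finrank_Z_ge (f : P →ₗ[B] Q) :
    finrank k (Q →ₗ[B] Q) + finrank k (P →ₗ[B] P) ≤
      finrank k (Z k f) + finrank k (P →ₗ[B] Q) := by
  have h1 := finrank_Z' k f
  have h2 := Submodule.finrank_le (LinearMap.range (Phi k f f))
  omega

end

section symm
variable {k : Type u} [Field k] {B : Type u} [Ring B] [Algebra k B] (lam : B →ₗ[k] k)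
variable {P : Type u} [AddCommGroup P] [Module B P] [Module k P] [IsScalarTower k B P]
variable {Q : Type u} [AddCommGroup Q] [Module B Q] [Module k Q] [IsScalarTower k B Q]
variable [Module.Finite B P] [Module.Projective B P] [Module.Finite B Q] [Module.Projective B Q]

theorem htp_inj (hsym : ∀ x y, lam (x * y) = lam (y * x))
    (hnd : ∀ x, (∀ y, lam (x * y) = 0) → x = 0) (f : P →ₗ[B] Q) (hf : Rigid f) :
    Function.Injective (htp k f) := by
  obtain ⟨F⟩ := exists_Fr (B := B) P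
  obtain ⟨F'⟩ := exists_Fr (B := B) Q
  rw [← LinearMap.ker_eq_bot, LinearMap.ker_eq_bot']
  intro g hg
  have h1 : f ∘ₗ g = 0 := congrArg Prod.fst hg
  have h2 : g ∘ₗ f = 0 := congrArg Prod.snd hg
  refine T_nondeg lam hsym hnd F' F g fun h => ?_
  obtain ⟨α, β, rfl⟩ := hf h
  rw [LinearMap.add_comp, T_add (k := k)]
  have h3 : (f ∘ₗ β) ∘ₗ g = f ∘ₗ (β ∘ₗ g) := rfl
  have h4 : (α ∘ₗ f) ∘ₗ g = 0 := by rw [LinearMap.comp_assoc, h1, LinearMap.comp_zero]
  have h5 : (β ∘ₗ g) ∘ₗ f = 0 := by rw [LinearMap.comp_assoc, h2, LinearMap.comp_zero]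
  rw [h3, h4, T_comm lam hsym F' F (β ∘ₗ g) f, h5]
  have h6 : T lam F' (0 : Q →ₗ[B] Q) = 0 := by
    simp [T, trn]
  have h7 : T lam F (0 : P →ₗ[B] P) = 0 := by
    simp [T, trn]
  rw [h6, h7, add_zero]

variable [Module.Finite k P] [Module.Finite k Q]

theorem hom_eq (hsym : ∀ x y, lam (x * y) = lam (y * x))
    (hnd : ∀ x, (∀ y, lam (x * y) = 0) → x = 0) :
    finrank k (P →ₗ[B] Q) = finrank k (Q →ₗ[B] P) := by
  obtain ⟨F⟩ := exists_Fr (B := B) P
  obtain ⟨F'⟩ := exists_Fr (B := B) Q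
  exact le_antisymm (hom_le lam hsym hnd F F') (hom_le lam hsym hnd F' F)

theorem dimEnd_eq (hsym : ∀ x y, lam (x * y) = lam (y * x))
    (hnd : ∀ x, (∀ y, lam (x * y) = 0) → x = 0) (f : P →ₗ[B] Q) (hf : Rigid f) :
    dimEnd k f + 2 * finrank k (P →ₗ[B] Q) =
      finrank k (P →ₗ[B] P) + finrank k (Q →ₗ[B] Q) := by
  have h1 := finrank_Z k f hf
  have hle : LinearMap.range (htp k f) ≤ Z k f := by
    rintro _ ⟨g, rfl⟩
    exact htp_mem k f g
  have h2 : finrank k (N k f) = finrank k (Q →ₗ[B] P) :=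
    LinearMap.finrank_range_of_inj (htp_inj lam hsym hnd f hf)
  have h3 : finrank k (N k f) ≤ finrank k (Z k f) := Submodule.finrank_mono hle
  have h4 := hom_eq (P := P) (Q := Q) lam hsym hnd
  rw [dimEnd]
  omega

theorem dimEnd_ge (hsym : ∀ x y, lam (x * y) = lam (y * x))
    (hnd : ∀ x, (∀ y, lam (x * y) = 0) → x = 0) (f : P →ₗ[B] Q) :
    finrank k (P →ₗ[B] P) + finrank k (Q →ₗ[B] Q) ≤
      dimEnd k f + 2 * finrank k (P →ₗ[B] Q) := by
  have h1 := finrank_Z_ge k f
  have hle : LinearMap.range (htp k f) ≤ Z k f := by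
    rintro _ ⟨g, rfl⟩
    exact htp_mem k f g
  have h2 : finrank k (N k f) ≤ finrank k (Q →ₗ[B] P) := LinearMap.finrank_range_le _
  have h3 : finrank k (N k f) ≤ finrank k (Z k f) := Submodule.finrank_mono hle
  have h4 := hom_eq (P := P) (Q := Q) lam hsym hnd
  rw [dimEnd]
  omega

/-- a rigid homomorphism `P → Q` of projective modules over a symmetric algebra with
`dim End P + dim End Q ≤ 2 dim Hom(P,Q)` is an isomorphism. -/
theorem bijective_of_dim (hsym : ∀ x y, lam (x * y) = lam (y * x))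
    (hnd : ∀ x, (∀ y, lam (x * y) = 0) → x = 0) (f : P →ₗ[B] Q) (hf : Rigid f)
    (h : finrank k (P →ₗ[B] P) + finrank k (Q →ₗ[B] Q) ≤ 2 * finrank k (P →ₗ[B] Q)) :
    Nonempty (P ≃ₗ[B] Q) := by
  have h1 := finrank_Z k f hf
  have h4 := hom_eq (P := P) (Q := Q) lam hsym hnd
  have hle : LinearMap.range (htp k f) ≤ Z k f := by
    rintro _ ⟨g, rfl⟩
    exact htp_mem k f g
  have h2 : finrank k (LinearMap.range (htp k f)) = finrank k (Q →ₗ[B] P) :=
    LinearMap.finrank_range_of_inj (htp_inj lam hsym hnd f hf)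
  have h3 : LinearMap.range (htp k f) = Z k f :=
    Submodule.eq_of_le_of_finrank_le hle (by omega)
  have h5 : ((LinearMap.id, LinearMap.id) : (Q →ₗ[B] Q) × (P →ₗ[B] P)) ∈ Z k f := by
    change LinearMap.id ∘ₗ f = f ∘ₗ LinearMap.id
    rw [LinearMap.id_comp, LinearMap.comp_id]
  rw [← h3] at h5
  obtain ⟨g, hg⟩ := h5
  have h6 : f ∘ₗ g = LinearMap.id := congrArg Prod.fst hg
  have h7 : g ∘ₗ f = LinearMap.id := congrArg Prod.snd hg
  exact ⟨LinearEquiv.ofLinear f g h6 h7⟩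

end symm

end TB20
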