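import Mathlib

/-!
# Integral quadratic forms which are positive on the nonzero integral vectors
-/

set_option autoImplicit false

namespace TB20

variable {n : ℕ}

/-- the quadratic form with matrix `C`. -/
def qf {R : Type} [CommRing R] (C : Fin n → Fin n → R) (x : Fin n → R) : R :=
  ∑ i, ∑ j, x i * x j * C i j

/-- its bilinear form. -/
def bf {R : Type} [CommRing R] (C : Fin n → Fin n → R) (x y : Fin n → R) : R :=
  ∑ i, ∑ j, x i * y j * C i j

theorem qf_smul {R : Type} [CommRing R] (C : Fin n → Fin n → R) (c : R) (x : Fin n → R) :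
    qf C (fun i => c * x i) = c ^ 2 * qf C x := by
  simp only [qf, Finset.mul_sum]
  refine Finset.sum_congr rfl fun i _ => Finset.sum_congr rfl fun j _ => ?_
  ring

theorem bf_comm {R : Type} [CommRing R] (C : Fin n → Fin n → R) (hC : ∀ i j, C i j = C j i)
    (x y : Fin n → R) : bf C x y = bf C y x := by
  rw [bf, bf, Finset.sum_comm]
  refine Finset.sum_congr rfl fun i _ => Finset.sum_congr rfl fun j _ => ?_
  rw [hC]; ring

theorem qf_add {R : Type} [CommRing R] (C : Fin n → Fin n → R) (hC : ∀ i j, C i j = C j i)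
    (c : R) (x y : Fin n → R) :
    qf C (fun i => x i + c * y i) = qf C x + 2 * c * bf C x y + c ^ 2 * qf C y := by
  have h1 : 2 * c * bf C x y = c * bf C x y + c * bf C y x := by
    rw [bf_comm C hC y x]; ring
  rw [h1]
  simp only [qf, bf, Finset.mul_sum, ← Finset.sum_add_distrib]
  refine Finset.sum_congr rfl fun i _ => Finset.sum_congr rfl fun j _ => ?_
  ring

theorem qf_cast (C : Fin n → Fin n → ℤ) (x : Fin n → ℤ) :
    ((qf C x : ℤ) : ℝ) = qf (fun i j => (C i j : ℝ)) (fun i => (x i : ℝ)) := by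
  simp only [qf, Int.cast_sum, Int.cast_mul]

theorem continuous_qf (C : Fin n → Fin n → ℝ) : Continuous (qf C) := by
  unfold qf
  fun_prop

theorem qf_nonneg (C : Fin n → Fin n → ℤ) (h : ∀ x : Fin n → ℤ, x ≠ 0 → 1 ≤ qf C x)
    (x : Fin n → ℝ) : 0 ≤ qf (fun i j => (C i j : ℝ)) x := by
  have h0 : ∀ x : Fin n → ℤ, 0 ≤ qf C x := by
    intro x
    by_cases hx : x = 0
    · subst hx
      simp [qf]
    · exact le_trans zero_le_one (h x hx)
  have hcl : IsClosed {x : Fin n → ℝ | 0 ≤ qf (fun i j => (C i j : ℝ)) x} :=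
    isClosed_le continuous_const (continuous_qf _)
  have hd : DenseRange (Pi.map (fun (_ : Fin n) (q : ℚ) => (q : ℝ))) :=
    DenseRange.piMap fun _ => Rat.denseRange_cast
  have hsub : Set.range (Pi.map (fun (_ : Fin n) (q : ℚ) => (q : ℝ))) ⊆
      {x : Fin n → ℝ | 0 ≤ qf (fun i j => (C i j : ℝ)) x} := by
    rintro _ ⟨q, rfl⟩
    change 0 ≤ qf (fun i j => (C i j : ℝ)) (fun i => ((q i : ℚ) : ℝ))
    -- a common denominator
    let d : ℕ := ∏ i, (q i).den
    have hd0 : (0 : ℝ) < d := by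
      have : 0 < d := Finset.prod_pos fun i _ => (q i).den_pos
      exact_mod_cast this
    have hy : ∀ i, ∃ y : ℤ, (y : ℝ) = (d : ℝ) * ((q i : ℚ) : ℝ) := by
      intro i
      obtain ⟨e, he⟩ : (q i).den ∣ d := Finset.dvd_prod_of_mem _ (Finset.mem_univ i)
      refine ⟨e * (q i).num, ?_⟩
      have h1 : ((q i : ℚ) : ℝ) = (q i).num / (q i).den := by
        exact_mod_cast congrArg (fun r : ℚ => (r : ℝ)) (Rat.num_div_den (q i)).symm
      have h2 : ((q i).den : ℝ) ≠ 0 := by exact_mod_cast (q i).den_nz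
      rw [he, h1]
      push_cast
      field_simp
    choose y hy using hy
    have h1 := h0 y
    have h2 : (0 : ℝ) ≤ ((qf C y : ℤ) : ℝ) := by exact_mod_cast h1
    rw [qf_cast] at h2
    have h3 : (fun i => (y i : ℝ)) = fun i => (d : ℝ) * ((q i : ℚ) : ℝ) := funext hy
    rw [h3, qf_smul] at h2
    have h4 : (0 : ℝ) < (d : ℝ) ^ 2 := by positivity
    by_contra hneg
    push Not at hneg
    have := mul_neg_of_pos_of_neg h4 hneg
    linarith
  have h1 := hcl.closure_subset_iff.2 hsub
  rw [hd.closure_range] at h1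
  exact h1 (Set.mem_univ x)

/-- positive on the nonzero integral vectors implies positive definite. -/
theorem qf_pos (C : Fin n → Fin n → ℤ) (hC : ∀ i j, C i j = C j i)
    (h : ∀ x : Fin n → ℤ, x ≠ 0 → 1 ≤ qf C x) (x : Fin n → ℝ) (hx : x ≠ 0) :
    0 < qf (fun i j => (C i j : ℝ)) x := by
  set D : Fin n → Fin n → ℝ := fun i j => (C i j : ℝ) with hD
  have hDs : ∀ i j, D i j = D j i := fun i j => by simp only [hD, hC i j]
  refine lt_of_le_of_ne (qf_nonneg C h x) fun h0 => ?_
  -- `x` is in the radical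
  have hrad : ∀ y, bf D x y = 0 := by
    intro y
    have h1 : ∀ c : ℝ, 0 ≤ 2 * c * bf D x y + c ^ 2 * qf D y := by
      intro c
      have h2 := qf_nonneg C h (fun i => x i + c * y i)
      rw [← hD, qf_add D hDs, ← h0, zero_add] at h2
      exact h2
    have hq := qf_nonneg C h y
    rw [← hD] at hq
    by_contra hb
    -- take `c = - bf / (1 + qf y)`
    have h3 := h1 (-(bf D x y) / (1 + qf D y))
    have h4 : 0 < 1 + qf D y := by linarith
    have h5 : 2 * (-(bf D x y) / (1 + qf D y)) * bf D x y +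
        (-(bf D x y) / (1 + qf D y)) ^ 2 * qf D y =
        (bf D x y) ^ 2 * (-2 - qf D y) / (1 + qf D y) ^ 2 := by
      field_simp
      ring
    rw [h5] at h3
    have h6 : 0 < (bf D x y) ^ 2 := by positivity
    have h7 : (bf D x y) ^ 2 * (-2 - qf D y) / (1 + qf D y) ^ 2 < 0 := by
      apply div_neg_of_neg_of_pos
      · exact mul_neg_of_pos_of_neg h6 (by linarith)
      · positivity
    linarith
  have hmul : (Matrix.of D).mulVec x = 0 := by
    funext i
    have h1 := hrad (Pi.single i 1)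
    have h2 : bf D x (Pi.single i 1) = ∑ j, D i j * x j := by
      rw [bf]
      refine Finset.sum_congr rfl fun j _ => ?_
      rw [Finset.sum_eq_single i]
      · rw [Pi.single_eq_same, hDs j i]; ring
      · intro l _ hl
        rw [Pi.single_eq_of_ne hl]; ring
      · intro hi; exact absurd (Finset.mem_univ i) hi
    rw [h2] at h1
    exact h1
  have hdet : (Matrix.of D).det = 0 :=
    Matrix.exists_mulVec_eq_zero_iff.1 ⟨x, hx, hmul⟩
  have hdet' : (Matrix.of C).det = 0 := by
    have h1 : (Matrix.of D) = (Int.castRingHom ℝ).mapMatrix (Matrix.of C) := by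
      ext i j
      simp [hD]
    rw [h1, ← RingHom.map_det] at hdet
    have h2 : (((Matrix.of C).det : ℤ) : ℝ) = 0 := hdet
    exact_mod_cast h2
  obtain ⟨v, hv, hv'⟩ := Matrix.exists_mulVec_eq_zero_iff.2 hdet'
  have h1 := h v hv
  have h2 : qf C v = 0 := by
    have h3 : qf C v = ∑ i, v i * (Matrix.of C).mulVec v i := by
      rw [qf]
      refine Finset.sum_congr rfl fun i _ => ?_
      rw [Matrix.mulVec, dotProduct, Finset.mul_sum]
      refine Finset.sum_congr rfl fun j _ => ?_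
      rw [Matrix.of_apply]; ring
    rw [h3, hv']
    simp
  omega

/-- positive on the nonzero integral vectors: lower bound by a multiple of the sum of squares. -/
theorem qf_lower (C : Fin n → Fin n → ℤ) (hC : ∀ i j, C i j = C j i)
    (h : ∀ x : Fin n → ℤ, x ≠ 0 → 1 ≤ qf C x) :
    ∃ c : ℝ, 0 < c ∧ ∀ x : Fin n → ℝ, c * ∑ i, x i ^ 2 ≤ qf (fun i j => (C i j : ℝ)) x := by
  set D : Fin n → Fin n → ℝ := fun i j => (C i j : ℝ) with hD
  -- lower bound on the unit sphere
  have hc : ∃ c : ℝ, 0 < c ∧ ∀ x : Fin n → ℝ, c * ‖x‖ ^ 2 ≤ qf D x := by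
    have hscale : ∀ (c : ℝ), (∀ x : Fin n → ℝ, ‖x‖ = 1 → c ≤ qf D x) →
        ∀ x : Fin n → ℝ, c * ‖x‖ ^ 2 ≤ qf D x := by
      intro c hc x
      by_cases hx : x = 0
      · subst hx
        simp [qf]
      · have hn : 0 < ‖x‖ := norm_pos_iff.2 hx
        have h1 : ‖(fun i => ‖x‖⁻¹ * x i : Fin n → ℝ)‖ = 1 := by
          have h2 : (fun i => ‖x‖⁻¹ * x i : Fin n → ℝ) = ‖x‖⁻¹ • x := rfl
          rw [h2, norm_smul, norm_inv, norm_norm, inv_mul_cancel₀ hn.ne']
        have h3 := hc _ h1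
        rw [qf_smul, inv_pow] at h3
        rwa [← div_eq_inv_mul, le_div_iff₀ (by positivity)] at h3
    have hcomp : IsCompact (Metric.sphere (0 : Fin n → ℝ) 1) := isCompact_sphere 0 1
    rcases (Metric.sphere (0 : Fin n → ℝ) 1).eq_empty_or_nonempty with he | hne
    · refine ⟨1, one_pos, hscale 1 fun x hx => ?_⟩
      exfalso
      have : x ∈ Metric.sphere (0 : Fin n → ℝ) 1 := by simpa using hx
      rw [he] at this
      exact this
    · obtain ⟨x0, hx0, hmin⟩ := hcomp.exists_isMinOn hne (continuous_qf D).continuousOn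
      have hx0' : ‖x0‖ = 1 := by simpa using hx0
      refine ⟨qf D x0, qf_pos C hC h x0 ?_, hscale _ fun x hx => ?_⟩
      · rintro rfl
        simp at hx0'
      · exact hmin (by simpa using hx)
  obtain ⟨c, hc0, hc⟩ := hc
  refine ⟨c / (n + 1), by positivity, fun x => ?_⟩
  have h1 : ∑ i, x i ^ 2 ≤ (n + 1) * ‖x‖ ^ 2 := by
    have h2 : ∑ i, x i ^ 2 ≤ ∑ _i : Fin n, ‖x‖ ^ 2 := by
      refine Finset.sum_le_sum fun i _ => ?_
      rw [← sq_abs]
      exact pow_le_pow_left₀ (abs_nonneg _) (norm_le_pi_norm x i) 2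
    rw [Finset.sum_const, Finset.card_univ, Fintype.card_fin, nsmul_eq_mul] at h2
    have h3 : 0 ≤ ‖x‖ ^ 2 := by positivity
    linarith
  have hn : (0 : ℝ) < n + 1 := by positivity
  calc c / (n + 1) * ∑ i, x i ^ 2 ≤ c / (n + 1) * ((n + 1) * ‖x‖ ^ 2) :=
        mul_le_mul_of_nonneg_left h1 (by positivity)
    _ = c * ‖x‖ ^ 2 := by field_simp
    _ ≤ qf D x := hc x

end TB20
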