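import Pool.Agent.LibTB20.S2
import Pool.Agent.LibTB20.S3
import Pool.Agent.LibTB10.E2

/-!
# Symmetric algebras: the Cartan form
-/

set_option autoImplicit false

universe u

namespace TB20

open Module TB10

section dims
variable {k : Type u} [Field k] {B : Type u} [Ring B] [Algebra k B]

theorem finrank_pow_hom (P : Type u) [AddCommGroup P] [Module B P] [Module k P]
    [IsScalarTower k B P] [Module.Finite k P] (N : Type u) [AddCommGroup N] [Module B N]
    [Module k N] [IsScalarTower k B N] [Module.Finite k N] (a : ℕ) :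
    finrank k ((Fin a → P) →ₗ[B] N) = a * finrank k (P →ₗ[B] N) := by
  rw [← (LinearMap.lsum B (fun _ : Fin a => P) k (M := N)).finrank_eq,
    Module.finrank_pi_fintype, Finset.sum_const, Finset.card_univ, Fintype.card_fin, smul_eq_mul]

theorem finrank_hom_pow (M : Type u) [AddCommGroup M] [Module B M] [Module k M]
    [IsScalarTower k B M] [Module.Finite k M] (P : Type u) [AddCommGroup P] [Module B P]
    [Module k P] [IsScalarTower k B P] [Module.Finite k P] (b : ℕ) :
    finrank k (M →ₗ[B] (Fin b → P)) = b * finrank k (M →ₗ[B] P) := by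
  rw [← (LinearEquiv.linearMapPi (R := B) (M₂ := M) (φ := fun _ : Fin b => P) k).finrank_eq,
    Module.finrank_pi_fintype, Finset.sum_const, Finset.card_univ, Fintype.card_fin, smul_eq_mul]

variable {n : ℕ} (P : Fin n → Type u) [∀ i, AddCommGroup (P i)] [∀ i, Module B (P i)]
  [∀ i, Module k (P i)] [∀ i, IsScalarTower k B (P i)] [∀ i, Module.Finite k (P i)]

/-- the module `P_1^{a_1} ⊕ ... ⊕ P_n^{a_n}`. -/
abbrev Pw (a : Fin n → ℕ) : Type u := (i : Fin n) → Fin (a i) → P i

theorem finrank_Pw_hom (N : Type u) [AddCommGroup N] [Module B N]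
    [Module k N] [IsScalarTower k B N] [Module.Finite k N] (a : Fin n → ℕ) :
    finrank k (Pw P a →ₗ[B] N) = ∑ i, a i * finrank k (P i →ₗ[B] N) := by
  rw [← (LinearMap.lsum B (fun i : Fin n => Fin (a i) → P i) k (M := N)).finrank_eq,
    Module.finrank_pi_fintype]
  exact Finset.sum_congr rfl fun i _ => finrank_pow_hom (P i) N (a i)

theorem finrank_hom_Pw (M : Type u) [AddCommGroup M] [Module B M]
    [Module k M] [IsScalarTower k B M] [Module.Finite k M] (b : Fin n → ℕ) :
    finrank k (M →ₗ[B] Pw P b) = ∑ j, b j * finrank k (M →ₗ[B] P j) := by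
  rw [← (LinearEquiv.linearMapPi (R := B) (M₂ := M) (φ := fun i : Fin n => Fin (b i) → P i)
    k).finrank_eq, Module.finrank_pi_fintype]
  exact Finset.sum_congr rfl fun j _ => finrank_hom_pow M (P j) (b j)

theorem finrank_Pw_Pw (a b : Fin n → ℕ) :
    finrank k (Pw P a →ₗ[B] Pw P b) = ∑ i, ∑ j, a i * b j * finrank k (P i →ₗ[B] P j) := by
  rw [finrank_Pw_hom]
  refine Finset.sum_congr rfl fun i _ => ?_
  rw [finrank_hom_Pw, Finset.mul_sum]
  exact Finset.sum_congr rfl fun j _ => (mul_assoc _ _ _).symm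

end dims

section main
variable {k : Type u} [Field k] {B : Type u} [Ring B] [Algebra k B] [Module.Finite k B]
  (lam : B →ₗ[k] k)
variable {n : ℕ} (P : Fin n → Type u) [∀ i, AddCommGroup (P i)] [∀ i, Module B (P i)]
  [∀ i, Module k (P i)] [∀ i, IsScalarTower k B (P i)] [∀ i, Module.Finite B (P i)]
  [∀ i, Module.Projective B (P i)]

/-- the Cartan matrix. -/
noncomputable def Cm (k : Type u) [Field k] (B : Type u) [Ring B] [Algebra k B]
    {n : ℕ} (P : Fin n → Type u) [∀ i, AddCommGroup (P i)] [∀ i, Module B (P i)]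
    [∀ i, Module k (P i)] [∀ i, IsScalarTower k B (P i)] (i j : Fin n) : ℤ :=
  finrank k (P i →ₗ[B] P j)

instance instProjPw (a : Fin n → ℕ) : Module.Projective B (Pw P a) := by
  have : ∀ i, Module.Projective B (Fin (a i) → P i) := fun i =>
    Module.Projective.of_equiv (DirectSum.linearEquivFunOnFintype B (Fin (a i)) fun _ => P i)
  exact Module.Projective.of_equiv
    (DirectSum.linearEquivFunOnFintype B (Fin n) fun i => Fin (a i) → P i)

variable [∀ i, Module.Finite k (P i)]

theorem Cm_symm (hsym : ∀ x y, lam (x * y) = lam (y * x))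
    (hnd : ∀ x, (∀ y, lam (x * y) = 0) → x = 0) (i j : Fin n) : Cm k B P i j = Cm k B P j i := by
  rw [Cm, Cm, hom_eq (P := P i) (Q := P j) lam hsym hnd]

theorem bf_cast (a b : Fin n → ℕ) :
    (finrank k (Pw P a →ₗ[B] Pw P b) : ℤ) =
      bf (Cm k B P) (fun i => (a i : ℤ)) (fun i => (b i : ℤ)) := by
  rw [finrank_Pw_Pw, bf]
  push_cast
  rfl

theorem qf_sub (C : Fin n → Fin n → ℤ) (hC : ∀ i j, C i j = C j i) (a b : Fin n → ℤ) :
    qf C (fun i => b i - a i) = bf C a a + bf C b b - 2 * bf C a b := by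
  have h1 := qf_add C hC (-1) b a
  have h2 : (fun i => b i + -1 * a i) = fun i => b i - a i := by
    funext i; ring
  rw [h2] at h1
  rw [h1, bf_comm C hC b a]
  have h3 : ∀ x, qf C x = bf C x x := fun x => rfl
  rw [h3, h3]
  ring

/-- the endomorphism dimension of a rigid complex is given by the Cartan form. -/
theorem dimEnd_qf (hsym : ∀ x y, lam (x * y) = lam (y * x))
    (hnd : ∀ x, (∀ y, lam (x * y) = 0) → x = 0) (a b : Fin n → ℕ)
    (f : Pw P a →ₗ[B] Pw P b) (hf : Rigid f) :
    (dimEnd k f : ℤ) = qf (Cm k B P) (fun i => (b i : ℤ) - a i) := by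
  have h1 := dimEnd_eq lam hsym hnd f hf
  have h2 := qf_sub (Cm k B P) (Cm_symm lam P hsym hnd) (fun i => (a i : ℤ)) (fun i => (b i : ℤ))
  rw [h2, ← bf_cast, ← bf_cast, ← bf_cast]
  omega

/-- the endomorphism dimension of a complex is at least the value of the Cartan form. -/
theorem qf_le_dimEnd (hsym : ∀ x y, lam (x * y) = lam (y * x))
    (hnd : ∀ x, (∀ y, lam (x * y) = 0) → x = 0) (a b : Fin n → ℕ)
    (f : Pw P a →ₗ[B] Pw P b) :
    qf (Cm k B P) (fun i => (b i : ℤ) - a i) ≤ (dimEnd k f : ℤ) := by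
  have h1 := dimEnd_ge lam hsym hnd f
  have h2 := qf_sub (Cm k B P) (Cm_symm lam P hsym hnd) (fun i => (a i : ℤ)) (fun i => (b i : ℤ))
  rw [h2, ← bf_cast, ← bf_cast, ← bf_cast]
  omega

/-- if there are no infinite families of bricks the Cartan form is positive on the nonzero
integral vectors. -/
theorem cartan_pos [Infinite k] (hsym : ∀ x y, lam (x * y) = lam (y * x))
    (hnd : ∀ x, (∀ y, lam (x * y) = 0) → x = 0)
    (hind : ∀ a b : Fin n → ℕ, (∀ i, a i = 0 ∨ b i = 0) → Nonempty (Pw P a ≃ₗ[B] Pw P b) → a = b)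
    (hno : ∀ d, ¬ InfBricks k B d) (x : Fin n → ℤ) (hx : x ≠ 0) : 1 ≤ qf (Cm k B P) x := by
  by_contra hcon
  let a : Fin n → ℕ := fun i => (-(x i)).toNat
  let b : Fin n → ℕ := fun i => (x i).toNat
  have hab : (fun i => (b i : ℤ) - a i) = x := by
    funext i
    change (((x i).toNat : ℕ) : ℤ) - (((-(x i)).toNat : ℕ) : ℤ) = x i
    rw [Int.toNat_sub_toNat_neg]
  have hne : a ≠ b := by
    intro h
    apply hx
    rw [← hab, h]
    funext i
    simp
  have hdisj : ∀ i, a i = 0 ∨ b i = 0 := fun i => by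
    change (-(x i)).toNat = 0 ∨ (x i).toNat = 0
    omega
  have h2 := qf_sub (Cm k B P) (Cm_symm lam P hsym hnd) (fun i => (a i : ℤ)) (fun i => (b i : ℤ))
  rw [hab, ← bf_cast, ← bf_cast, ← bf_cast] at h2
  have hdim : finrank k (Pw P a →ₗ[B] Pw P a) + finrank k (Pw P b →ₗ[B] Pw P b) ≤
      2 * finrank k (Pw P a →ₗ[B] Pw P b) := by omega
  obtain ⟨d, -, hd⟩ := criterion k B (Pw P a) (Pw P b) fun f hf =>
    hne (hind a b hdisj (bijective_of_dim lam hsym hnd f hf hdim))
  exact hno d hd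

end main

end TB20
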