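import Pool.Agent.LibTB20.S4

/-!
# Sums of modules with local endomorphism rings; the theorem
-/

set_option autoImplicit false

universe u

namespace TB20

open Module TB10

section krull
variable {B : Type u} [Ring B]
variable {n : ℕ} (P : Fin n → Type u) [∀ i, AddCommGroup (P i)] [∀ i, Module B (P i)]

/-- inclusion of a summand. -/
def inc (a : Fin n → ℕ) (i : Fin n) (t : Fin (a i)) : P i →ₗ[B] Pw P a :=
  LinearMap.single B (fun i => Fin (a i) → P i) i ∘ₗ LinearMap.single B (fun _ => P i) t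

/-- projection to a summand. -/
def prj (a : Fin n → ℕ) (i : Fin n) (t : Fin (a i)) : Pw P a →ₗ[B] P i :=
  LinearMap.proj t ∘ₗ LinearMap.proj i

theorem prj_inc (a : Fin n → ℕ) (i : Fin n) (t : Fin (a i)) :
    prj (B := B) P a i t ∘ₗ inc P a i t = LinearMap.id := by
  refine LinearMap.ext fun x => ?_
  simp [prj, inc]

theorem sum_inc_prj (a : Fin n → ℕ) (v : Pw P a) :
    v = ∑ i, ∑ t, inc (B := B) P a i t (prj (B := B) P a i t v) := by
  funext i t
  simp only [Finset.sum_apply]
  rw [Finset.sum_eq_single i]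
  · rw [Finset.sum_eq_single t]
    · simp [prj, inc]
    · intro t' _ ht
      simp [inc, Pi.single_eq_of_ne ht.symm]
    · intro h; exact absurd (Finset.mem_univ t) h
  · intro j _ hj
    refine Finset.sum_eq_zero fun t' _ => ?_
    simp [inc, Pi.single_eq_of_ne hj.symm]
  · intro h; exact absurd (Finset.mem_univ i) h

theorem exists_unit_of_sum {R ι : Type*} [Ring R] [IsLocalRing R] (s : Finset ι) (f : ι → R)
    (h : IsUnit (∑ i ∈ s, f i)) : ∃ i ∈ s, IsUnit (f i) := by
  classical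
  induction s using Finset.induction_on with
  | empty =>
    rw [Finset.sum_empty] at h
    exact absurd h not_isUnit_zero
  | insert a s ha ih =>
    rw [Finset.sum_insert ha] at h
    rcases IsLocalRing.isUnit_or_isUnit_of_isUnit_add h with h | h
    · exact ⟨a, Finset.mem_insert_self a s, h⟩
    · obtain ⟨i, hi, hu⟩ := ih h
      exact ⟨i, Finset.mem_insert_of_mem hi, hu⟩

theorem idem_local {R : Type*} [Ring R] [IsLocalRing R] {e : R} (he : e * e = e) (h0 : e ≠ 0) :
    e = 1 := by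
  rcases IsLocalRing.isUnit_or_isUnit_of_add_one (add_sub_cancel e 1) with h | h
  · have h1 : e * e = e * 1 := by rw [he, mul_one]
    exact h.mul_left_cancel h1
  · exfalso
    apply h0
    have h1 : (1 - e) * e = (1 - e) * 0 := by rw [sub_mul, one_mul, he, sub_self, mul_zero]
    exact h.mul_left_cancel h1

/-- sums of disjoint families of nonisomorphic modules with local endomorphism rings are not
isomorphic. -/
theorem not_iso (hloc : ∀ i, IsLocalRing (Module.End B (P i)))
    (hni : ∀ i j, i ≠ j → ¬ Nonempty (P i ≃ₗ[B] P j)) (a b : Fin n → ℕ)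
    (hab : ∀ i, a i = 0 ∨ b i = 0) (i₀ : Fin n) (hi : a i₀ ≠ 0) :
    ¬ Nonempty (Pw P a ≃ₗ[B] Pw P b) := by
  rintro ⟨e⟩
  let t₀ : Fin (a i₀) := ⟨0, Nat.pos_of_ne_zero hi⟩
  let v : ∀ (j : Fin n) (t : Fin (b j)), P i₀ →ₗ[B] P j := fun j t =>
    prj (B := B) P b j t ∘ₗ e.toLinearMap ∘ₗ inc (B := B) P a i₀ t₀
  let w : ∀ (j : Fin n) (t : Fin (b j)), P j →ₗ[B] P i₀ := fun j t =>
    prj (B := B) P a i₀ t₀ ∘ₗ e.symm.toLinearMap ∘ₗ inc (B := B) P b j t
  have h1 : (1 : Module.End B (P i₀)) = ∑ j, ∑ t, (w j t ∘ₗ v j t : Module.End B (P i₀)) := by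
    refine LinearMap.ext fun x => ?_
    have h2 := LinearMap.congr_fun (prj_inc (B := B) P a i₀ t₀) x
    simp only [LinearMap.comp_apply, LinearMap.id_apply] at h2
    have h3 := sum_inc_prj (B := B) P b (e (inc (B := B) P a i₀ t₀ x))
    have h4 := congrArg (fun y => prj (B := B) P a i₀ t₀ (e.symm y)) h3
    simp only [e.symm_apply_apply, map_sum] at h4
    rw [h2] at h4
    simp only [LinearMap.sum_apply]
    exact h4
  have := hloc i₀
  obtain ⟨j, -, hj⟩ := exists_unit_of_sum _ _ (by rw [← h1]; exact isUnit_one)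
  obtain ⟨t, -, ht⟩ := exists_unit_of_sum _ _ hj
  obtain ⟨u, hu⟩ := ht
  -- `w' v = 1`
  let w' : P j →ₗ[B] P i₀ := (u⁻¹ : (Module.End B (P i₀))ˣ).1 ∘ₗ w j t
  have h5 : w' ∘ₗ v j t = LinearMap.id := by
    have h6 : (u⁻¹ : (Module.End B (P i₀))ˣ).1 * (w j t ∘ₗ v j t : Module.End B (P i₀)) = 1 := by
      rw [← hu]
      exact u.inv_mul
    exact h6
  have hloc' := hloc j
  have hidem : (v j t ∘ₗ w' : Module.End B (P j)) * (v j t ∘ₗ w') = v j t ∘ₗ w' := by
    refine LinearMap.ext fun x => ?_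
    have h6 := LinearMap.congr_fun h5 (w' x)
    simp only [LinearMap.comp_apply, LinearMap.id_apply] at h6
    change v j t (w' (v j t (w' x))) = v j t (w' x)
    rw [h6]
  have hne : (v j t ∘ₗ w' : Module.End B (P j)) ≠ 0 := by
    intro h0
    have h7 : (LinearMap.id : P i₀ →ₗ[B] P i₀) = 0 := by
      have h8 : w' ∘ₗ (v j t ∘ₗ w') ∘ₗ v j t = (w' ∘ₗ v j t) ∘ₗ (w' ∘ₗ v j t) := rfl
      rw [h5, h0, LinearMap.id_comp, LinearMap.zero_comp, LinearMap.comp_zero] at h8
      exact h8.symm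
    exact one_ne_zero (α := Module.End B (P i₀)) h7
  have h9 : (v j t ∘ₗ w' : Module.End B (P j)) = 1 := idem_local hidem hne
  have hij : i₀ = j := by
    by_contra hij
    exact hni i₀ j hij ⟨LinearEquiv.ofLinearMap (v j t) w' h9 h5⟩
  subst hij
  rcases hab i₀ with h | h
  · exact hi h
  · exact absurd t.2 (by omega)

/-- the classes of the `P i` are independent. -/
theorem indep (hloc : ∀ i, IsLocalRing (Module.End B (P i)))
    (hni : ∀ i j, i ≠ j → ¬ Nonempty (P i ≃ₗ[B] P j)) (a b : Fin n → ℕ)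
    (hab : ∀ i, a i = 0 ∨ b i = 0) (h : Nonempty (Pw P a ≃ₗ[B] Pw P b)) : a = b := by
  have ha : ∀ i, a i = 0 := fun i => by
    by_contra hi
    exact not_iso P hloc hni a b hab i hi h
  have hb : ∀ i, b i = 0 := fun i => by
    by_contra hi
    exact not_iso P hloc hni b a (fun i => (hab i).symm) i hi ⟨h.some.symm⟩
  funext i
  rw [ha, hb]

end krull

section final

/-- **the theorem**: numerical criterion for symmetric algebras. -/
theorem symm_criterion {k : Type u} [Field k] [Infinite k] {A : Type u} [Ring A] [Algebra k A]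
    [Module.Finite k A] {B : Type u} [Ring B] [Algebra k B] (π : A →ₐ[k] B)
    (hπ : Function.Surjective π) (lam : B →ₗ[k] k) (hsym : ∀ x y, lam (x * y) = lam (y * x))
    (hnd : ∀ x, (∀ y, lam (x * y) = 0) → x = 0)
    (P : Type u) [AddCommGroup P] [Module B P] [Module k P] [IsScalarTower k B P]
    [Module.Finite B P] [Module.Projective B P]
    (Q : Type u) [AddCommGroup Q] [Module B Q] [Module k Q] [IsScalarTower k B Q]
    [Module.Finite B Q] [Module.Projective B Q] (hPQ : ¬ Nonempty (P ≃ₗ[B] Q))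
    (h : finrank k (P →ₗ[B] P) + finrank k (Q →ₗ[B] Q) ≤ 2 * finrank k (P →ₗ[B] Q)) :
    ∃ d ≤ finrank k Q, InfBricks k A d := by
  have : Module.Finite k B := Module.Finite.of_surjective π.toLinearMap hπ
  have : Module.Finite k P := Module.Finite.trans B P
  have : Module.Finite k Q := Module.Finite.trans B Q
  obtain ⟨d, hd, hB⟩ := criterion k B P Q fun f hf =>
    hPQ (bijective_of_dim lam hsym hnd f hf h)
  exact ⟨d, hd, infBricks_of_quot π hπ d hB⟩

/-- **the theorem**: the Cartan form and the endomorphism dimensions of the 2-term complexes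
over a symmetric algebra without infinite families of bricks. -/
theorem symm_cartan {k : Type u} [Field k] [Infinite k] {A : Type u} [Ring A] [Algebra k A]
    [Module.Finite k A] {B : Type u} [Ring B] [Algebra k B] (π : A →ₐ[k] B)
    (hπ : Function.Surjective π) (lam : B →ₗ[k] k) (hsym : ∀ x y, lam (x * y) = lam (y * x))
    (hnd : ∀ x, (∀ y, lam (x * y) = 0) → x = 0)
    {n : ℕ} (P : Fin n → Type u) [∀ i, AddCommGroup (P i)] [∀ i, Module B (P i)]
    [∀ i, Module k (P i)] [∀ i, IsScalarTower k B (P i)] [∀ i, Module.Finite B (P i)]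
    [∀ i, Module.Projective B (P i)] (hloc : ∀ i, IsLocalRing (Module.End B (P i)))
    (hni : ∀ i j, i ≠ j → ¬ Nonempty (P i ≃ₗ[B] P j)) (hno : ∀ d, ¬ InfBricks k A d) :
    ∃ c : ℝ, 0 < c ∧
      (∀ x : Fin n → ℝ, c * ∑ i, x i ^ 2 ≤
        ∑ i, ∑ j, x i * x j * (finrank k (P i →ₗ[B] P j) : ℝ)) ∧
      ∀ (a b : Fin n → ℕ) (f : Pw P a →ₗ[B] Pw P b),
        c * ∑ i, ((b i : ℝ) - a i) ^ 2 ≤ dimEnd k f := by
  have : Module.Finite k B := Module.Finite.of_surjective π.toLinearMap hπ
  have : ∀ i, Module.Finite k (P i) := fun i => Module.Finite.trans B (P i)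
  have hno' : ∀ d, ¬ InfBricks k B d := fun d hd => hno d (infBricks_of_quot π hπ d hd)
  have hC := Cm_symm lam P hsym hnd
  have hpos := cartan_pos lam P hsym hnd (indep P hloc hni) hno'
  obtain ⟨c, hc0, hc⟩ := qf_lower (Cm k B P) hC hpos
  refine ⟨c, hc0, fun x => ?_, fun a b f => ?_⟩
  · have h1 := hc x
    have h2 : qf (fun i j => ((Cm k B P i j : ℤ) : ℝ)) x =
        ∑ i, ∑ j, x i * x j * (finrank k (P i →ₗ[B] P j) : ℝ) := by
      simp only [qf, Cm, Int.cast_natCast]
    rwa [h2] at h1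
  · have h1 := qf_le_dimEnd lam P hsym hnd a b f
    have h2 : ((qf (Cm k B P) (fun i => (b i : ℤ) - a i) : ℤ) : ℝ) ≤ dimEnd k f := by
      exact_mod_cast h1
    rw [qf_cast] at h2
    have h3 := hc (fun i => (b i : ℝ) - a i)
    refine h3.trans ?_
    have h4 : (fun i => (((b i : ℤ) - (a i : ℤ) : ℤ) : ℝ)) = fun i => (b i : ℝ) - a i := by
      funext i
      push_cast
      rfl
    rwa [h4] at h2

end final

end TB20
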